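import Pool.Agent.helper94.AP.SpecU

/-! Row ap:KAP. -/

set_option autoImplicit false

namespace Pool.Agent.AP

open Finset

theorem KAP_fac (n : ℤ) (q : ℕ) : 0 ≤ 1 + jacobiSym n q ∧ 1 + jacobiSym n q ≤ 2 := by
  rcases jacobiSym.trichotomy n q with h | h | h <;> rw [h] <;> constructor <;> norm_num

theorem KAP_nonneg (w y : ℕ) (n : ℤ) : 0 ≤ kap w y n :=
  Finset.prod_nonneg fun q _ => (KAP_fac n q).1

theorem KAP_le (w y : ℕ) (n : ℤ) (hy : 1 ≤ y) : kap w y n ≤ (y.divisors.card : ℤ) := by
  rw [Nat.card_divisors (by omega)]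
  unfold kap
  rw [Finset.prod_filter]
  push_cast
  refine Finset.prod_le_prod (fun q _ => ?_) (fun q hq => ?_)
  · split_ifs
    · exact (KAP_fac n q).1
    · norm_num
  · have h1 : 1 ≤ y.factorization q := by
      have := Nat.Prime.factorization_pos_of_dvd (Nat.prime_of_mem_primeFactors hq) (by omega)
        (Nat.dvd_of_mem_primeFactors hq)
      omega
    have h1' : (1 : ℤ) ≤ (y.factorization q : ℤ) := by exact_mod_cast h1
    split_ifs
    · have := (KAP_fac n q).2
      linarith
    · linarith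

theorem KAP_two (y k : ℕ) (n : ℤ) (hy : 1 ≤ y) (hk : k = 1 ∨ k.Prime) :
    kap 2 (y * k) n ≤ 2 * kap 2 y n := by
  have h0 := KAP_nonneg 2 y n
  rcases hk with rfl | hk
  · rw [mul_one]
    linarith
  · have hpf : (y * k).primeFactors = insert k y.primeFactors := by
      rw [Nat.primeFactors_mul (by omega) hk.ne_zero, hk.primeFactors, Finset.union_comm]
      rfl
    unfold kap at h0 ⊢
    rw [hpf, Finset.filter_insert]
    split_ifs with h2
    · by_cases hm : k ∈ y.primeFactors.filter (fun q => 2 < q)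
      · rw [Finset.insert_eq_of_mem hm]
        linarith
      · rw [Finset.prod_insert hm]
        exact mul_le_mul_of_nonneg_right (KAP_fac n k).2 h0
    · linarith

theorem KAP_pow (w y c z p : ℕ) (hp : Odd p) :
    kap w y ((c * z ^ p : ℕ) : ℤ) = kap w y ((c * z : ℕ) : ℤ) := by
  unfold kap
  refine Finset.prod_congr rfl fun q _ => ?_
  push_cast
  rw [jacobiSym.mul_left, jacobiSym.mul_left, jacobiSym.pow_left]
  rcases jacobiSym.trichotomy (z : ℤ) q with h | h | h
  · rw [h, zero_pow hp.pos.ne']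
  · rw [h, one_pow]
  · rw [h, hp.neg_one_pow]

theorem KAP : KAP_stmt :=
  ⟨fun w y n hy => ⟨KAP_nonneg w y n, KAP_le w y n hy⟩, fun y k n hy hk => KAP_two y k n hy hk,
    fun w y c z p _ hp _ => KAP_pow w y c z p hp⟩

end Pool.Agent.AP
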