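import Pool.Agent.helper8.AP.SpecR

/-! Row ap:RCE. -/

set_option autoImplicit false

namespace Pool.Agent.AP

open Finset

theorem RCE : RCE_stmt := by
  intro S T c φ Φ B ε A γ θ ρ hc hΦ hΦB hε hA hγ hθ hρ hφ hC
  set C : ℝ := ∑ z ∈ S, ∑ y ∈ T, c z y with hCdef
  have h1 : |∑ z ∈ S, ∑ y ∈ T, c z y * φ z y - Φ * C| ≤ ε * C := by
    have e : ∑ z ∈ S, ∑ y ∈ T, c z y * φ z y - Φ * C = ∑ z ∈ S, ∑ y ∈ T, c z y * (φ z y - Φ) := by
      rw [hCdef, Finset.mul_sum, ← Finset.sum_sub_distrib]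
      refine Finset.sum_congr rfl fun z _ => ?_
      rw [Finset.mul_sum, ← Finset.sum_sub_distrib]
      refine Finset.sum_congr rfl fun y _ => ?_
      ring
    rw [e, hCdef, Finset.mul_sum]
    refine (Finset.abs_sum_le_sum_abs _ _).trans (Finset.sum_le_sum fun z hz => ?_)
    rw [Finset.mul_sum]
    refine (Finset.abs_sum_le_sum_abs _ _).trans (Finset.sum_le_sum fun y hy => ?_)
    rw [abs_mul, abs_of_nonneg (hc z y), mul_comm ε]
    exact mul_le_mul_of_nonneg_left (hφ z hz y hy) (hc z y)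
  have h2 : |Φ * C - γ * (Φ * A)| ≤ B * ((θ * γ + ρ) * A) := by
    have e : Φ * C - γ * (Φ * A) = Φ * (C - γ * A) := by ring
    rw [e, abs_mul, abs_of_nonneg hΦ]
    exact mul_le_mul hΦB hC (abs_nonneg _) (hΦ.trans hΦB)
  have h3 : C ≤ γ * A + (θ * γ + ρ) * A := by
    have := (abs_le.1 hC).2
    linarith
  have h4 : ε * C ≤ ε * (γ * A + (θ * γ + ρ) * A) := mul_le_mul_of_nonneg_left h3 hε
  have h5 := abs_sub_le (∑ z ∈ S, ∑ y ∈ T, c z y * φ z y) (Φ * C) (γ * (Φ * A))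
  calc |∑ z ∈ S, ∑ y ∈ T, c z y * φ z y - γ * (Φ * A)| ≤ ε * (γ * A + (θ * γ + ρ) * A) +
      B * ((θ * γ + ρ) * A) := by linarith
    _ = ((B + ε) * (θ * γ + ρ) + ε * γ) * A := by ring

end Pool.Agent.AP
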