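import Pool.Agent.helper8.AP.SpecR

/-! Row ap:RPI. -/

set_option autoImplicit false

namespace Pool.Agent.AP

open Finset

theorem RPI (hRGI : RGI_stmt) : RPI_stmt := by
  intro p u hu hu1
  have hs1 : 1 ≤ u ^ (-((p : ℝ) / 2)) := by
    refine Real.one_le_rpow_of_pos_of_le_one_of_nonpos hu hu1 ?_
    have : (0 : ℝ) ≤ (p : ℝ) := Nat.cast_nonneg p
    linarith
  have e : ∀ v : ℝ, Ph p u v = u ^ (-((p : ℝ) / 2)) * Gf (v * u ^ (-((p : ℝ) / 2))) := fun v => rfl
  generalize u ^ (-((p : ℝ) / 2)) = s at hs1 e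
  have hs0 : s ≠ 0 := by linarith
  simp_rw [e]
  rw [intervalIntegral.integral_const_mul, intervalIntegral.integral_comp_mul_right _ hs0, zero_mul,
    smul_eq_mul, ← mul_assoc, mul_inv_cancel₀ hs0, one_mul]
  refine hRGI _ ?_
  have h2 : √2 ≤ 2 := by
    rw [Real.sqrt_le_left (by norm_num)]
    norm_num
  linarith

end Pool.Agent.AP
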