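import Pool.Agent.helper8.AP.SpecR

/-! Row ap:RWA. -/

set_option autoImplicit false

namespace Pool.Agent.AP

open Finset

theorem RWA_Gf (t : ℝ) (ht : 0 < t) : (√(1 - t ^ 2 / 2) - √(1 - t ^ 2)) / t ^ 2 = Gf t := by
  unfold Gf
  split_ifs with h
  · have ht2 : t ^ 2 ≤ 1 := by nlinarith
    have ha : 0 < 1 - t ^ 2 / 2 := by linarith
    have hb : 0 ≤ 1 - t ^ 2 := by linarith
    have h1 := Real.sq_sqrt ha.le
    have h2 := Real.sq_sqrt hb
    have h3 := Real.sqrt_pos.2 ha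
    have h4 := Real.sqrt_nonneg (1 - t ^ 2)
    rw [div_eq_div_iff (by positivity) (by positivity)]
    nlinarith
  · have ht2 : 1 - t ^ 2 ≤ 0 := by nlinarith
    rw [Real.sqrt_eq_zero_of_nonpos ht2, sub_zero]

theorem RWA : RWA_stmt := by
  intro T N y hT hN hy
  have hNT : 0 < N / T := div_pos hN hT
  have ht : 0 < y * √(N / T) := mul_pos hy (Real.sqrt_pos.2 hNT)
  have ht2 : (y * √(N / T)) ^ 2 = y ^ 2 * (N / T) := by
    rw [mul_pow, Real.sq_sqrt hNT.le]
  rw [← RWA_Gf _ ht, ht2]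
  unfold ell
  have hT0 : T ≠ 0 := hT.ne'
  have e1 : T - N / 2 * y ^ 2 = T * (1 - y ^ 2 * (N / T) / 2) := by
    field_simp
  have e2 : T - N * y ^ 2 = T * (1 - y ^ 2 * (N / T)) := by
    field_simp
  rw [e1, e2, Real.sqrt_mul hT.le, Real.sqrt_mul hT.le]
  have hsT : √T ≠ 0 := (Real.sqrt_pos.2 hT).ne'
  have hss : √T * √T = T := Real.mul_self_sqrt hT.le
  generalize √(1 - y ^ 2 * (N / T) / 2) = a
  generalize √(1 - y ^ 2 * (N / T)) = b
  rw [div_mul_div_comm, div_eq_div_iff (by positivity) (by positivity)]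
  have hT1 : T * (N / T) = N := by field_simp
  calc 2 * (√T * a - √T * b) * (√T * (y ^ 2 * (N / T))) = 2 * (a - b) * y ^ 2 * ((√T * √T) * (N / T)) := by ring
    _ = 2 * (a - b) * y ^ 2 * N := by rw [hss, hT1]
    _ = 2 * N * (a - b) * y ^ 2 := by ring

end Pool.Agent.AP
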